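import Pool.Agent.TH546.PC.Point

/-!
Self-avoiding polygons on the square lattice: `p_{2n} ≤ (K / n) μ^(2n)` for all `n`, the sum of
`p_{2j} μ^(-2j)` over `j ≥ n` is at most `K / √n`, and the sum of `(W_j + √j) p_{2j} μ^(-2j)` over
`j ≤ n`, with `W_j` the mean width at perimeter `2j`, is at most `K log n`.
-/

namespace Pool.Agent.Results.MP_376faf_co.PolygonsInverseLength

open Filter Topology

/-- the number of `n`-step self-avoiding walks on `ℤ²` started at the origin -/
noncomputable def c (n : ℕ) : ℕ :=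
  Nat.card {f : Fin (n + 1) → ℤ × ℤ // f 0 = 0 ∧ Function.Injective f ∧
    ∀ i : Fin n, |(f i.succ).1 - (f i.castSucc).1| + |(f i.succ).2 - (f i.castSucc).2| = 1}

/-- a closed nearest-neighbour loop on `ℤ²` with `m` steps, rooted at the origin and oriented,
that visits no vertex twice -/
def IsLoop (m : ℕ) (f : ZMod m → ℤ × ℤ) : Prop :=
  f 0 = 0 ∧ Function.Injective f ∧
    ∀ i : ZMod m, |(f (i + 1)).1 - (f i).1| + |(f (i + 1)).2 - (f i).2| = 1

/-- the number of self-avoiding polygons of perimeter `2n` on `ℤ²` up to translation: the number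
of rooted oriented loops with `2n` steps, divided by `4n` (the choices of the starting point and
of the orientation) -/
noncomputable def p (n : ℕ) : ℝ :=
  (Nat.card {f : ZMod (2 * n) → ℤ × ℤ // IsLoop (2 * n) f} : ℝ) / (4 * (n : ℝ))

/-- the width (horizontal extent) of a loop -/
noncomputable def width (m : ℕ) (f : ZMod m → ℤ × ℤ) : ℕ :=
  sSup {w : ℕ | ∃ i j, w = ((f i).1 - (f j).1).natAbs}

/-- the mean width `W_n` of the self-avoiding polygons of perimeter `2 n`: the average of the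
width over the rooted oriented polygons. -/
noncomputable def W (n : ℕ) : ℝ :=
  (∑ᶠ f ∈ {f : ZMod (2 * n) → ℤ × ℤ | IsLoop (2 * n) f}, (width (2 * n) f : ℝ)) /
    ({f : ZMod (2 * n) → ℤ × ℤ | IsLoop (2 * n) f}.ncard : ℝ)

lemma c_eq (n : ℕ) : (c n : ℝ) = H981.cr' n := by
  rw [H981.cr'_eq]
  unfold c H981.C H981.IsSAW
  congr 1
  apply Nat.card_congr
  apply Equiv.subtypeEquivRight
  intro f
  constructor
  · rintro ⟨h0, h1, h2⟩
    exact ⟨h0, h2, h1⟩
  · rintro ⟨h0, h2, h1⟩
    exact ⟨h0, h1, h2⟩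

lemma p_eq (n : ℕ) : p n = H981.PP n := rfl

lemma W_eq {n : ℕ} (hn : 2 ≤ n) : W n = Pool.Agent.W870.Pg.MW n := Pool.Agent.W870.Pg.MW_eq hn

/-- **Theorem.** Let `μ` be the connective constant of `ℤ²`, `p_{2j}` the number of self-avoiding
polygons of perimeter `2j` up to translation and `W_j` their mean width.  There is a constant `K`
such that for all `n ≥ 2`: (1) `p_{2n} ≤ (K / n) μ^(2n)`; (2) the sum of `p_{2j} μ^(-2j)` over
`n ≤ j ≤ m` is at most `K / √n`, for every `m`; (3) the sum of `(W_j + √j) p_{2j} μ^(-2j)` over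
`2 ≤ j ≤ n` is at most `K log n`. -/
theorem result : ∃ μ : ℝ, 0 < μ ∧
    Tendsto (fun n : ℕ => (c n : ℝ) ^ ((1:ℝ) / (n : ℝ))) atTop (𝓝 μ) ∧
    ∃ K : ℝ, ∀ n : ℕ, 2 ≤ n →
      p n ≤ K / n * μ ^ (2 * n) ∧
      (∀ m : ℕ, ∑ j ∈ Finset.Icc n m, p j / μ ^ (2 * j) ≤ K / Real.sqrt n) ∧
      ∑ j ∈ Finset.Icc 2 n, (W j + Real.sqrt j) * p j / μ ^ (2 * j) ≤ K * Real.log n := by
  refine ⟨H981.mu, H981.mu_pos, ?_, ?_⟩
  · simp only [c_eq]
    exact H981.tendsto_root
  · obtain ⟨K1, hK1, h1⟩ := Pool.Agent.TH546.PC.point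
    obtain ⟨K2, hK2, h2⟩ := Pool.Agent.TH546.PC.tail
    obtain ⟨K3, hK3, h3⟩ := Pool.Agent.TH546.PC.log_sum
    have hmu := H981.mu_pos
    refine ⟨K1 + K2 + 3 * K3, fun n hn => ⟨?_, fun m => ?_, ?_⟩⟩
    · have h := h1 n hn
      unfold Pool.Agent.W870.Pg.Fp at h
      rw [div_le_iff₀ (pow_pos hmu _)] at h
      rw [p_eq]
      refine h.trans ?_
      apply mul_le_mul_of_nonneg_right _ (pow_pos hmu _).le
      apply div_le_div_of_nonneg_right _ (Nat.cast_nonneg _)
      linarith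
    · refine (h2 n m hn).trans ?_
      apply div_le_div_of_nonneg_right _ (Real.sqrt_nonneg _)
      linarith
    · have hl : 0 ≤ Real.log n := Real.log_natCast_nonneg _
      have h4 : ∑ j ∈ Finset.Icc 2 n, (W j + Real.sqrt j) * p j / H981.mu ^ (2 * j) ≤
          ∑ j ∈ Finset.Icc 2 n, 3 * (Pool.Agent.W870.Pg.MW j * Pool.Agent.W870.Pg.Fp j) := by
        apply Finset.sum_le_sum
        intro j hj
        have hj2 := (Finset.mem_Icc.mp hj).1
        have a1 := Pool.Agent.W870.Pg.sqrt_le_two_MW hj2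
        have a2 := (Pool.Agent.W870.Pg.Fp_pos hj2).le
        have e : (W j + Real.sqrt j) * p j / H981.mu ^ (2 * j) =
            (Pool.Agent.W870.Pg.MW j + Real.sqrt j) * Pool.Agent.W870.Pg.Fp j := by
          rw [W_eq hj2, p_eq]
          unfold Pool.Agent.W870.Pg.Fp
          ring
        rw [e]
        nlinarith
      rw [← Finset.mul_sum] at h4
      have h5 := h3 n hn
      have h6 : 0 ≤ (K1 + K2) * Real.log n := by positivity
      linarith

end Pool.Agent.Results.MP_376faf_co.PolygonsInverseLength
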