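import Pool.Agent.TH508.LT.Fin2

/-!
Self-avoiding polygons on the square lattice: there is `K` with
`μ^(2n) exp(-K (log n)^2) ≤ p_{2n} ≤ μ^(2n) exp(K (log n)^2)` for all `n ≥ 2`.
-/

namespace Pool.Agent.Results.MP_376faf_co.PolygonsLogTwo

open Filter Topology

/-- the number of `n`-step self-avoiding walks on `ℤ²` started at the origin -/
noncomputable def c (n : ℕ) : ℕ :=
  Nat.card {f : Fin (n + 1) → ℤ × ℤ // f 0 = 0 ∧ Function.Injective f ∧
    ∀ i : Fin n, |(f i.succ).1 - (f i.castSucc).1| + |(f i.succ).2 - (f i.castSucc).2| = 1}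

/-- the number of self-avoiding polygons of perimeter `2n` on `ℤ²` up to translation: the number
of injective nearest-neighbour closed loops `f : ℤ/2n → ℤ²` with `f 0 = 0`, divided by `4n` (the
choices of the starting point and of the orientation) -/
noncomputable def p (n : ℕ) : ℝ :=
  ((Nat.card {f : ZMod (2*n) → ℤ × ℤ // f 0 = 0 ∧ Function.Injective f ∧
    ∀ i : ZMod (2*n), |(f (i+1)).1 - (f i).1| + |(f (i+1)).2 - (f i).2| = 1} : ℕ) : ℝ)
    / (4 * (n:ℝ))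

lemma c_eq (n : ℕ) : (c n : ℝ) = H981.cr' n := by
  rw [H981.cr'_eq]
  unfold c H981.C H981.IsSAW
  congr 1
  apply Nat.card_congr
  apply Equiv.subtypeEquivRight
  intro f
  constructor
  · rintro ⟨h0, h1, h2⟩
    exact ⟨h0, h2, h1⟩
  · rintro ⟨h0, h2, h1⟩
    exact ⟨h0, h1, h2⟩

lemma p_eq (n : ℕ) : p n = H981.PP n := rfl

/-- **Theorem.** On `ℤ²` the connective constant `μ` exists, and there is a constant `K` such that
`μ^(2n) exp(-K (log n)^2) ≤ p_{2n} ≤ μ^(2n) exp(K (log n)^2)` for all `n ≥ 2`. -/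
theorem result : ∃ μ : ℝ, 0 < μ ∧
    Tendsto (fun n : ℕ => (c n : ℝ) ^ ((1:ℝ) / (n : ℝ))) atTop (𝓝 μ) ∧
    ∃ K : ℝ, ∀ n : ℕ, 2 ≤ n →
      μ ^ (2 * n) * Real.exp (-(K * (Real.log n) ^ 2)) ≤ p n ∧
      p n ≤ μ ^ (2 * n) * Real.exp (K * (Real.log n) ^ 2) := by
  refine ⟨H981.mu, H981.mu_pos, ?_, ?_⟩
  · simp only [c_eq]
    exact H981.tendsto_root
  · obtain ⟨K, _, h⟩ := Pool.Agent.TH508.LT.sq_PP2
    exact ⟨K, fun n hn => by simpa only [p_eq] using h n hn⟩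

end Pool.Agent.Results.MP_376faf_co.PolygonsLogTwo
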