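import Pool.Agent.W387.Q.Hyp
import Pool.Agent.TH508.LT.Gap2

/-!
Self-avoiding polygons on the square lattice: `|p_{2n+2}/p_{2n} - μ²| ≤ K log n / √n`.
-/

set_option linter.unusedSectionVars false

namespace Pool.Agent.Results.MP_376faf_co.RatioRateLogTwo

open Filter Topology

/-- `ω` is a self-avoiding walk with `n` steps on `ℤ²`, started at the origin. -/
def IsSAW (n : ℕ) (ω : Fin (n + 1) → ℤ × ℤ) : Prop :=
  ω 0 = (0, 0) ∧
  (∀ i : Fin n, |(ω i.succ).1 - (ω i.castSucc).1| + |(ω i.succ).2 - (ω i.castSucc).2| = 1) ∧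
  Function.Injective ω

/-- the number of `n`-step self-avoiding walks on `ℤ²` started at the origin -/
noncomputable def C (n : ℕ) : ℕ := Nat.card {ω : Fin (n + 1) → ℤ × ℤ // IsSAW n ω}

/-- `f` runs once around a simple cycle of `ℤ²` with `m` edges, from the origin. -/
def IsPolygon (m : ℕ) (f : ZMod m → ℤ × ℤ) : Prop :=
  f 0 = 0 ∧ Function.Injective f ∧
    ∀ i : ZMod m, |(f (i + 1)).1 - (f i).1| + |(f (i + 1)).2 - (f i).2| = 1

/-- the number `p_{2n}` of self-avoiding polygons of perimeter `2n`, up to translation: a polygon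
has `2n` possible starting points and `2` orientations. -/
noncomputable def p (n : ℕ) : ℝ :=
  (Nat.card {f : ZMod (2 * n) → ℤ × ℤ // IsPolygon (2 * n) f} : ℝ) / (4 * (n : ℝ))

lemma p_eq (n : ℕ) : p n = H981.PP n := rfl

lemma p_pos {n : ℕ} (hn : 2 ≤ n) : 0 < p n := Pool.Agent.H739K.PP_pos hn

/-- **Theorem.** Let `μ` be the connective constant of `ℤ²` and `p_{2n}` the number of
self-avoiding polygons of perimeter `2n` up to translation. There is `K` with
`|p_{2n+2}/p_{2n} - μ²| ≤ K log n / √n` for all `n ≥ 2`. -/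
theorem result : ∃ μ : ℝ, 0 < μ ∧
    Tendsto (fun n : ℕ => (C n : ℝ) ^ (1 / (n : ℝ))) atTop (𝓝 μ) ∧
    ∃ K : ℝ, ∀ n : ℕ, 2 ≤ n →
      |p (n + 1) / p n - μ ^ 2| ≤ K * (Real.log n / Real.sqrt n) := by
  refine ⟨H981.mu, H981.mu_pos, ?_, ?_⟩
  · have h := H981.tendsto_root
    simp only [H981.cr'_eq] at h
    exact h
  · obtain ⟨K, hK⟩ := Pool.Agent.W387.Q.f1
    refine ⟨K, fun n hn => ?_⟩
    rw [← Pool.Agent.TH508.LT.rN_eq hn]
    exact hK n hn

end Pool.Agent.Results.MP_376faf_co.RatioRateLogTwo
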